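import Pool.Agent.Lib.Helper4.CS.Upper

/-!
# MP_d95ec1_co: an exponentially smaller central set in `ℤ^n`

For every `n ≥ 1` the lattice `ℤ^n` has a central set with `44^(n/6) * 2^(n mod 6)` elements.

The block of forty-four points of `ℤ^6` consists of the twelve vector weights and of one class of thirty-two half spin
weights of `D_6` (up to scaling and translation).
-/

set_option autoImplicit false

namespace Pool.Agent.Results.MP_d95ec1_co.BlockUpperBound

open Pool.Agent.Lib.Helper4.CS

theorem result : ∀ n : ℕ, 1 ≤ n → ∃ E : Finset (Fin n → ℤ),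
    IsCentral n (E : Set (Fin n → ℤ)) ∧ E.card = 44 ^ (n / 6) * 2 ^ (n % 6) :=
  exists_central

end Pool.Agent.Results.MP_d95ec1_co.BlockUpperBound
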