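import Pool.Agent.Lib.H12D.Cover

/-!
A lower bound for the size of central sets in the lattice `ℤ^n`.
-/

set_option autoImplicit false

open Pool.Agent.H61C

/-- For `n ≥ 2` every finite central set of `ℤ^n` has at least `n² - 2 n + 3` elements. -/
theorem Pool.Agent.Results.MP_d95ec1_co.QuadraticLowerBound.result :
    ∀ n : ℕ, 2 ≤ n → ∀ E : Finset (Fin n → ℤ), Central (E : Set (Fin n → ℤ)) →
      n ^ 2 + 3 ≤ E.card + 2 * n :=
  fun _ hn E hE => Pool.Agent.H12D.card_central hn E hE
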