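import Pool.Agent.Lib.H12D.Main

/-!
Central sets in the lattice are not sparse in any affine coordinate system.
-/

set_option autoImplicit false

open Pool.Agent.H61C

/-- Let `φ 0, ..., φ (m - 1)` be linearly independent linear functionals on `ℝ^n`, let `t i` be
real numbers and let `m ≥ 16 s² + 2`, `s ≥ 1`. Then every central set of `ℤ^n` has a point `x` with
`φ i x ≠ t i` for more than `s` indices `i`. -/
theorem Pool.Agent.Results.MP_d95ec1_co.Sparsity.result :
    ∀ (n m s : ℕ), 1 ≤ s → 16 * s ^ 2 + 2 ≤ m →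
      ∀ φ : Fin m → Module.Dual ℝ (Fin n → ℝ), LinearIndependent ℝ φ →
        ∀ (t : Fin m → ℝ) (E : Set (Fin n → ℤ)), Central E →
          ∃ x ∈ E, s < (Finset.univ.filter fun i => φ i (fun j => (x j : ℝ)) ≠ t i).card :=
  fun _ _ _ hs hm φ hφ t E hE => Pool.Agent.H12D.sparse hs hm φ hφ t E hE
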