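import Pool.Agent.Lib.H61C.Numeric

/-!
Central sets in the lattice: a subexponential upper bound for `c(ℤ^n)`.
-/

set_option autoImplicit false

open Pool.Agent.H61C

namespace Pool.Agent.H61C

theorem exists_central {n : ℕ} (hn : 0 < n) :
    ∃ E : Finset (Fin n → ℤ), Central (E : Set (Fin n → ℤ)) ∧ E.card = minCentral n := by
  have h1 := central_blockSet hn (Nat.succ_pos n) (gridLS_all hn) Fin.castSucc (n + 1) (by
    have h := exp_aux n hn
    have hle : -(((n + 1 : ℕ) : ℝ) + 1) ^ 2 / ((n + 1 : ℕ) : ℝ) ≤ -((n : ℝ) + 3) := by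
      rw [div_le_iff₀ (by positivity)]
      push_cast
      nlinarith
    have h2 := Real.exp_le_exp.2 hle
    calc 2 * (n : ℝ) ^ 2 * Real.exp (-(((n + 1 : ℕ) : ℝ) + 1) ^ 2 / ((n + 1 : ℕ) : ℝ))
        ≤ 2 * (n : ℝ) ^ 2 * Real.exp (-((n : ℝ) + 3)) := by gcongr
      _ < Real.exp (n + 3) * Real.exp (-((n : ℝ) + 3)) := by gcongr
      _ = 1 := by rw [← Real.exp_add]; simp)
  have hne : {k : ℕ | ∃ E : Finset (Fin n → ℤ),
      E.card = k ∧ Central (E : Set (Fin n → ℤ))}.Nonempty := ⟨_, _, rfl, h1⟩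
  obtain ⟨E, hE1, hE2⟩ := Nat.sInf_mem hne
  exact ⟨E, hE2, hE1⟩

end Pool.Agent.H61C

/-- For every `n ≥ 1` the minimum `c(ℤ^n)` of the cardinalities of the finite central sets is
attained, and it is at most `exp (3 √n log n)`. -/
theorem Pool.Agent.Results.MP_d95ec1_co.Subexponential.result :
    ∀ n : ℕ, 1 ≤ n →
      (∃ E : Finset (Fin n → ℤ), Central (E : Set (Fin n → ℤ)) ∧ E.card = minCentral n) ∧
      (minCentral n : ℝ) ≤ Real.exp (3 * Real.sqrt n * Real.log n) :=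
  fun _ hn => ⟨exists_central hn, minCentral_subexp hn⟩
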